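import Pool.Agent.helper79.TwMain

/-!
# Every nonmetrizable Corson compact space has a nontrivial twisted sum with c₀

For every nonmetrizable Corson compact space `K` there is a short exact sequence
`0 → c₀ → X → C(K) → 0` of Banach spaces which does not split.  No set-theoretic hypothesis
is used.

The proof is in `Pool/Agent/helper79/Tw*.lean`, `Pool/Agent/helper20/Tw/*.lean` and
`Pool/Agent/helper86/TwNoise.lean`.
-/

open Topology Set
open scoped ZeroAtInfty

universe u v

namespace Pool.Agent.Results.MP_9075ca_an.CorsonTwistedSum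

/-- The index set of the Σ-product can be taken in the universe of the compact space. -/
theorem small_index {K : Type u} [TopologicalSpace K] [CompactSpace K]
    (h : ∃ (κ : Type v) (e : K → κ → ℝ), IsEmbedding e ∧ ∀ x, {a | e x a ≠ 0}.Countable) :
    Pool.Agent.helper79.Tw.IsCorson K := by
  obtain ⟨κ, e, he, hc⟩ := h
  have hec : ∀ a, Continuous fun x => e x a := fun a => (continuous_apply a).comp he.continuous
  let F : κ → C(K, ℝ) := fun a => ⟨fun x => e x a, hec a⟩
  refine ⟨Set.range F, fun x f => f.1 x, ?_, fun x => ?_⟩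
  · have hcont : Continuous (fun (x : K) (f : Set.range F) => f.1 x) :=
      continuous_pi fun f => f.1.continuous
    have hinj : Function.Injective (fun (x : K) (f : Set.range F) => f.1 x) := by
      intro x y hxy
      apply he.injective
      funext a
      exact congrFun hxy ⟨F a, a, rfl⟩
    exact (hcont.isClosedEmbedding hinj).isEmbedding
  · refine ((hc x).image (fun a => (⟨F a, a, rfl⟩ : Set.range F))).mono ?_
    rintro ⟨_, a, rfl⟩ ha
    exact ⟨a, ha, rfl⟩

/-- Let `K` be a compact Hausdorff space which embeds into `ℝ^κ` in such a way that every point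
has countable support, and assume that `K` is not metrizable.  Then there are a Banach space `X`
and bounded linear operators `i : c₀ → X`, `q : X → C(K)` such that `i` is injective, `q` is
surjective, the range of `i` is the kernel of `q`, and the range of `i` is not complemented. -/
theorem result (K : Type u) [TopologicalSpace K] [CompactSpace K] [T2Space K]
    (hK : ∃ (κ : Type v) (e : K → κ → ℝ), IsEmbedding e ∧ ∀ x, {a | e x a ≠ 0}.Countable)
    (hm : ¬ TopologicalSpace.MetrizableSpace K) :
    ∃ (X : Type u) (_ : NormedAddCommGroup X) (_ : NormedSpace ℝ X) (_ : CompleteSpace X)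
      (i : C₀(ℕ, ℝ) →L[ℝ] X) (q : X →L[ℝ] C(K, ℝ)),
      Function.Injective i ∧ Function.Surjective q ∧
      LinearMap.range (i : C₀(ℕ, ℝ) →ₗ[ℝ] X) = LinearMap.ker (q : X →ₗ[ℝ] C(K, ℝ)) ∧
      ¬ Submodule.ClosedComplemented (LinearMap.range (i : C₀(ℕ, ℝ) →ₗ[ℝ] X)) := by
  obtain ⟨X, h1, h2, h3, i, q, -, hi, hq, hr, hn⟩ :=
    Pool.Agent.helper20.Tw.twisted_of_NT (Pool.Agent.helper79.Tw.main (small_index hK) hm)
  refine ⟨X, h1, h2, h3, i, q, hi, hq, hr, ?_⟩
  rintro ⟨p, hp⟩
  apply hn
  have hclo : IsClosed (Set.range i) := by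
    have h4 : Set.range i = (LinearMap.range (i : C₀(ℕ, ℝ) →ₗ[ℝ] X) : Set X) := rfl
    rw [h4, hr]
    exact q.isClosed_ker
  let e := i.equivRange hi hclo
  refine ⟨(e.symm : _ →L[ℝ] C₀(ℕ, ℝ)).comp p, fun c => ?_⟩
  have h5 : p (i c) = ⟨i c, c, rfl⟩ := hp ⟨i c, c, rfl⟩
  show e.symm (p (i c)) = c
  rw [h5]
  exact e.symm_apply_apply c

end Pool.Agent.Results.MP_9075ca_an.CorsonTwistedSum
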